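import Pool.Agent.K9h60.QI.Had
import Pool.Agent.K9h60.QI.Wel

/-!
# MP_eaaa35_co: `M_r(n)` for `n` slightly larger than `4 r`, exact values for `n = 4 r + 1`

`QI r A B`: each of the four sets `A ∩ B`, `A ∩ Bᶜ`, `Aᶜ ∩ B`, `Aᶜ ∩ Bᶜ` has at least `r` elements (for subsets `A`, `B` of
`Fin n`).  `Fam r n m`: there are `m` subsets of `Fin n`, every two of which satisfy this.  `maxQI r n`: the largest such
`m`, the number `M_r(n)` of the problem.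
-/

set_option autoImplicit false

namespace Pool.Agent.Results.MP_eaaa35_co.NearFourR

open Pool.Agent.K9h60.QI

/-- 1. `M_r(4 r) ≤ 4 r - 1` (known); `M_r(4 r + 1) ≤ 4 r`, and `M_r(4 r + 1) ≤ 4 r - 1` if `8 r + 1` is not a square.
2. For `n = 4 r + t`: `(M_r(n) + 1) (n - t ^ 2) ≤ n ^ 2 - t ^ 2`.
3. If a Hadamard matrix of order `4 r` exists then `M_r(4 r) = 4 r - 1`, `M_r(n) ≥ 4 r - 1` for all `n ≥ 4 r`, and
`M_r(4 r + 1) = 4 r - 1` if `8 r + 1` is not a square.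
4. This holds for every `r = 2 ^ k`, `k ≥ 1`.
5. Doubling: `M_{2 r}(2 n) ≥ 2 M_r(n) + 1`.
6. `M_3(12) = 11`, `M_3(13) = 12` (here `8 r + 1 = 25` is a square). -/
theorem result :
    (∀ r : ℕ, 1 ≤ r → maxQI r (4 * r) ≤ 4 * r - 1 ∧ maxQI r (4 * r + 1) ≤ 4 * r ∧
      (¬ IsSquare (8 * r + 1) → maxQI r (4 * r + 1) ≤ 4 * r - 1)) ∧
    (∀ r t : ℕ, 1 ≤ r →
      ((maxQI r (4 * r + t) : ℤ) + 1) * ((4 * r + t) - t ^ 2) ≤ (4 * r + t) ^ 2 - t ^ 2) ∧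
    (∀ r : ℕ, 1 ≤ r →
      (∃ H : Matrix (Fin (4 * r)) (Fin (4 * r)) ℤ, (∀ i j, H i j = 1 ∨ H i j = -1) ∧
        H * H.transpose = (4 * r : ℤ) • (1 : Matrix (Fin (4 * r)) (Fin (4 * r)) ℤ)) →
      maxQI r (4 * r) = 4 * r - 1 ∧ (¬ IsSquare (8 * r + 1) → maxQI r (4 * r + 1) = 4 * r - 1) ∧
        ∀ t : ℕ, 4 * r - 1 ≤ maxQI r (4 * r + t)) ∧
    (∀ k : ℕ, 1 ≤ k → maxQI (2 ^ k) (4 * 2 ^ k) = 4 * 2 ^ k - 1 ∧
      maxQI (2 ^ k) (4 * 2 ^ k + 1) = 4 * 2 ^ k - 1) ∧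
    (∀ r n : ℕ, 1 ≤ r → 4 * r ≤ n → 2 * maxQI r n + 1 ≤ maxQI (2 * r) (2 * n)) ∧
    maxQI 3 12 = 11 ∧ maxQI 3 13 = 12 := by
  refine ⟨fun r hr => ⟨max_le hr fun _ hm => near0 hr hm, max_le hr fun _ hm => (near1 hr hm).1,
    fun hs => max_le hr fun _ hm => (near1 hr hm).2 hs⟩, ?_, ?_, ?_, ?_, ?_, ?_⟩
  · intro r t hr
    exact near_t (le_maxQI hr (fam_two (by omega))) (fam_maxQI hr)
  · rintro r hr ⟨H, h1, h2⟩
    have h3 : maxQI r (4 * r) = 4 * r - 1 :=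
      le_antisymm (max_le hr fun _ hm => near0 hr hm) (le_maxQI hr (fam_had hr H h1 h2))
    refine ⟨h3, max_succ hr h3, fun t => le_maxQI hr ?_⟩
    induction t with
    | zero => exact fam_had hr H h1 h2
    | succ t ih => exact fam_succ ih
  · intro k hk
    exact ⟨max_sylv k, max_succ Nat.one_le_two_pow (max_sylv k) (not_sq hk)⟩
  · intro r n hr hn
    exact le_maxQI (by omega) (double (le_maxQI hr (fam_two hn)) (fam_maxQI hr))
  · exact le_antisymm (max_le (by norm_num) fun _ hm => near0 (r := 3) (by norm_num) hm)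
      (le_maxQI (by norm_num) fam11)
  · exact le_antisymm (max_le (by norm_num) fun _ hm => (near1 (r := 3) (by norm_num) hm).1)
      (le_maxQI (by norm_num) fam12)

end Pool.Agent.Results.MP_eaaa35_co.NearFourR
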