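import Pool.Agent.K9h60.QI.Asym
import Pool.Agent.K9h60.QI.Exact

/-!
# MP_eaaa35_co: the order of magnitude of `M_r(n)`, up to explicit constants, and two exact values

`QI r A B`: each of the four sets `A ∩ B`, `A ∩ Bᶜ`, `Aᶜ ∩ B`, `Aᶜ ∩ Bᶜ` has at least `r` elements (for subsets `A`, `B` of
`Fin n`).  `Fam r n m`: there are `m` subsets of `Fin n`, every two of which satisfy this.  `maxQI r n`: the largest such
`m`, the number `M_r(n)` of the problem.
-/

set_option autoImplicit false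

namespace Pool.Agent.Results.MP_eaaa35_co.OrderOfMagnitude

open Pool.Agent.K9h60.QI

/-- 1. An upper bound for all `r ≥ 1` and `n ≥ 4 r` (for `n < 4 r` there are no two such sets).
2. A lower bound of the same order in `n`, for all `r ≥ 1` and `n ≥ 4 r`.
3. For fixed `r`, the quotient of `n ^ (r - 1) M_r(n)` by the middle binomial coefficient has lower limit at least `1/2` and
upper limit at most `2 ^ (r - 2) ⌊r/2⌋! ⌊(r-1)/2⌋!`.
4. The upper bound is attained for `r = 2`, `n = 8` and `n = 12`. -/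
theorem result :
    (∀ r n : ℕ, 1 ≤ r → 4 * r ≤ n →
      2 * maxQI r n * (((n + 1) / 2).choose (r / 2) * (n / 2).choose ((r - 1) / 2)) ≤
        n.choose ((n + 1) / 2 - r / 2 + (r - 1) / 2)) ∧
    (∀ r n : ℕ, 1 ≤ r → 4 * r ≤ n → n.choose (n / 2) ≤ 6 ^ r * n ^ (r - 1) * maxQI r n) ∧
    (∀ r : ℕ, 1 ≤ r → ∀ ε : ℝ, 0 < ε → ∃ N : ℕ, ∀ n : ℕ, N ≤ n →
      (1 / 2 - ε) * (n.choose (n / 2) : ℝ) ≤ (n : ℝ) ^ (r - 1) * maxQI r n ∧
      (n : ℝ) ^ (r - 1) * maxQI r n ≤
        (2 ^ (r - 1) / 2 * ((r / 2).factorial * ((r - 1) / 2).factorial) + ε) * (n.choose (n / 2) : ℝ)) ∧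
    maxQI 2 8 = 7 ∧ maxQI 2 12 = 66 := by
  refine ⟨fun r n hr hn => upperM2 hr hn, fun r n hr hn => order_below hr hn, fun r hr ε hε => ?_, ?_, ?_⟩
  · obtain ⟨N, hN⟩ := Filter.eventually_atTop.1 ((lower_asymp hr hε).and (upper_asymp hr hε))
    exact ⟨N, fun n hn => hN n hn⟩
  · apply le_antisymm
    · have h := upperM2 (r := 2) (n := 8) (by norm_num) (by norm_num)
      have e : (8 : ℕ).choose ((8 + 1) / 2 - 2 / 2 + (2 - 1) / 2) = 56 := by decide
      have e' : ((8 + 1) / 2).choose (2 / 2) * (8 / 2).choose ((2 - 1) / 2) = 4 := by decide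
      rw [e, e'] at h
      omega
    · exact le_maxQI (by norm_num) fam7
  · apply le_antisymm
    · have h := upperM2 (r := 2) (n := 12) (by norm_num) (by norm_num)
      have e : (12 : ℕ).choose ((12 + 1) / 2 - 2 / 2 + (2 - 1) / 2) = 792 := by decide
      have e' : ((12 + 1) / 2).choose (2 / 2) * (12 / 2).choose ((2 - 1) / 2) = 6 := by decide
      rw [e, e'] at h
      omega
    · exact le_maxQI (by norm_num) fam66

end Pool.Agent.Results.MP_eaaa35_co.OrderOfMagnitude
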